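import Pool.Agent.Helper75.FS.St

/-!
# Project FS, module B6
-/

set_option autoImplicit false

namespace Pool.Agent.Helper41.FS

open Filter
open Pool.Agent.Helper75.FS

theorem succ_pow_le (r : ℕ) (δ : ℝ) (hδ : 0 < δ) :
    ∃ M : ℕ, 1 ≤ M ∧ ∀ m : ℕ, M ≤ m → ((m : ℝ) + 1) ^ r ≤ (1 + δ) * (m : ℝ) ^ r := by
  have h1 : Tendsto (fun m : ℕ => (1 + 1 / (m : ℝ)) ^ r) atTop (nhds ((1 + 0) ^ r)) :=
    (tendsto_const_nhds.add (tendsto_const_div_atTop_nhds_zero_nat 1)).pow r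
  rw [add_zero, one_pow] at h1
  have h2 := h1.eventually (gt_mem_nhds (show (1 : ℝ) < 1 + δ by linarith))
  obtain ⟨M, hM⟩ := eventually_atTop.1 h2
  refine ⟨max M 1, le_max_right _ _, fun m hm => ?_⟩
  have h3 := hM m (le_trans (le_max_left _ _) hm)
  have h4 : (0 : ℝ) < m := by
    have : 1 ≤ m := le_trans (le_max_right _ _) hm
    exact_mod_cast this
  have h5 : ((m : ℝ) + 1) ^ r = (1 + 1 / (m : ℝ)) ^ r * (m : ℝ) ^ r := by
    rw [← mul_pow]
    congr 1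
    field_simp
  rw [h5]
  exact mul_le_mul_of_nonneg_right h3.le (by positivity)

/-- integers whose `r`-th power is just above `T` -/
theorem exists_pow (r : ℕ) (hr : 1 ≤ r) (δ : ℝ) (hδ : 0 < δ) (N : ℕ) :
    ∃ T0 : ℝ, ∀ T : ℝ, T0 ≤ T → ∃ n : ℕ, N ≤ n ∧ T ≤ (n : ℝ) ^ r ∧ (n : ℝ) ^ r ≤ (1 + δ) * T := by
  obtain ⟨M, hM1, hM⟩ := succ_pow_le r δ hδ
  refine ⟨((max M N : ℕ) + 1 : ℝ) ^ r + 1, fun T hT => ?_⟩
  have hex : ∃ n : ℕ, T ≤ (n : ℝ) ^ r := by
    obtain ⟨n, hn⟩ := exists_nat_ge (max T 1)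
    refine ⟨n, le_trans (le_trans (le_max_left _ _) hn) ?_⟩
    exact le_self_pow₀ (le_trans (le_max_right _ _) hn) (by omega)
  classical
  set n := Nat.find hex with hn
  have h1 : T ≤ (n : ℝ) ^ r := Nat.find_spec hex
  have h2 : max M N + 1 < n := by
    by_contra hcon
    push Not at hcon
    have h3 : (n : ℝ) ^ r ≤ ((max M N : ℕ) + 1 : ℝ) ^ r := by
      apply pow_le_pow_left₀ (by positivity)
      exact_mod_cast hcon
    linarith
  obtain ⟨m, hm⟩ : ∃ m, n = m + 1 := ⟨n - 1, by omega⟩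
  have h4 : ¬ T ≤ (m : ℝ) ^ r := Nat.find_min hex (by omega)
  push Not at h4
  refine ⟨n, ?_, h1, ?_⟩
  · have := le_max_right M N
    omega
  · have h5 := hM m (by have := le_max_left M N; omega)
    have h6 : (n : ℝ) = (m : ℝ) + 1 := by rw [hm]; push_cast; ring
    rw [h6]
    refine h5.trans ?_
    exact mul_le_mul_of_nonneg_left h4.le (by linarith)

/-- large `c ≡ ρ` with large `2^c` -/
theorem exists_c (r : ℕ) (hr : 1 ≤ r) (ρ C : ℕ) (a T0 : ℝ) (ha : 0 < a) :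
    ∃ c : ℕ, C ≤ c ∧ c ≡ ρ [MOD r] ∧ T0 ≤ a * 2 ^ c := by
  obtain ⟨K, hK⟩ := exists_nat_ge (T0 / a)
  refine ⟨ρ + r * (C + K), ?_, ?_, ?_⟩
  · nlinarith
  · unfold Nat.ModEq
    rw [Nat.add_mul_mod_self_left]
  · have h1 : K ≤ ρ + r * (C + K) := by nlinarith
    have h2 : (K : ℝ) ≤ 2 ^ (ρ + r * (C + K)) := by
      have h3 : ρ + r * (C + K) < 2 ^ (ρ + r * (C + K)) := Nat.lt_two_pow_self
      have h4 : K ≤ 2 ^ (ρ + r * (C + K)) := by omega
      exact_mod_cast h4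
    have h5 : T0 / a ≤ 2 ^ (ρ + r * (C + K)) := hK.trans h2
    rw [div_le_iff₀ ha] at h5
    linarith

theorem hB6 (hA2 : StA2) (hA4 : StA4) (hA5 : StA5) (hA7 : StA7) (hB1 : StB1) (hB2 : StB2) (hB3 : StB3) : StB6 := by
  intro r hr ρ
  obtain ⟨hb1, hb2, -, -⟩ := hB1 r hr
  have hL := (hb1 ρ).1
  have hL' := (hb1 (ρ + 1)).1
  set L := LL r ρ with hLdef
  set L' := LL r (ρ + 1) with hLdef'
  have hfac : (0 : ℝ) < r.factorial := by exact_mod_cast Nat.factorial_pos r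
  refine ⟨?_, ?_, ?_⟩
  · intro ε hε N
    obtain ⟨e, he0, he1, he2⟩ : ∃ e : ℝ, 0 < e ∧ e ≤ 1 ∧ e * (3 * L + 4) ≤ ε := by
      have h1 : 0 < 3 * L + 4 := by linarith
      refine ⟨min 1 (ε / (3 * L + 4)), lt_min one_pos (div_pos hε h1), min_le_left _ _, ?_⟩
      calc min 1 (ε / (3 * L + 4)) * (3 * L + 4) ≤ ε / (3 * L + 4) * (3 * L + 4) :=
            mul_le_mul_of_nonneg_right (min_le_right _ _) h1.le
        _ = ε := div_mul_cancel₀ _ h1.ne'
    obtain ⟨N7, hN7⟩ := hA7 r e he0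
    obtain ⟨T0, hT0⟩ := exists_pow r hr e he0 (max N N7)
    obtain ⟨C, hC⟩ := hB2 r hr e he0
    have ha : 0 < (L + e) * r.factorial := by positivity
    obtain ⟨c, hc1, hc2, hc3⟩ := exists_c r hr ρ C ((L + e) * r.factorial) T0 ha
    obtain ⟨n, hn1, hn2, hn3⟩ := hT0 _ hc3
    have hLc : LL r c = L := hb2 c ρ hc2
    have hcode : Code n r c := by
      apply hC c hc1 n
      rw [hLc]
      calc (L + e) * ((r.factorial : ℝ) * 2 ^ c) = (L + e) * r.factorial * 2 ^ c := by ring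
        _ ≤ _ := hn2
    refine ⟨n, le_trans (le_max_left _ _) hn1, ?_⟩
    have h1 := hA5.1 n r c hcode
    have h2 := (hN7 n (le_trans (le_max_right _ _) hn1)).2
    have h2c : (0 : ℝ) < 2 ^ c := by positivity
    refine h1.trans ?_
    rw [div_le_iff₀ h2c]
    have h3 : (1 + e) * ((n : ℝ) ^ r / r.factorial) ≤ (1 + e) * ((1 + e) * ((L + e) * 2 ^ c)) := by
      apply mul_le_mul_of_nonneg_left _ (by linarith)
      rw [div_le_iff₀ hfac]
      calc (n : ℝ) ^ r ≤ (1 + e) * ((L + e) * r.factorial * 2 ^ c) := hn3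
        _ = _ := by ring
    refine h2.trans (h3.trans ?_)
    have h4 : (1 + e) * (1 + e) * (L + e) ≤ L + ε := by nlinarith [mul_pos he0 he0, mul_pos (mul_pos he0 he0) he0]
    calc (1 + e) * ((1 + e) * ((L + e) * 2 ^ c)) = (1 + e) * (1 + e) * (L + e) * 2 ^ c := by ring
      _ ≤ (L + ε) * 2 ^ c := mul_le_mul_of_nonneg_right h4 h2c.le
  · intro ε hε N
    obtain ⟨e, he0, he1, he2⟩ : ∃ e : ℝ, 0 < e ∧ e ≤ 1 / 2 ∧ e * (4 * L' + 2) ≤ ε := by
      have h1 : 0 < 4 * L' + 2 := by linarith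
      refine ⟨min (1 / 2) (ε / (4 * L' + 2)), lt_min (by norm_num) (div_pos hε h1), min_le_left _ _, ?_⟩
      calc min (1 / 2) (ε / (4 * L' + 2)) * (4 * L' + 2) ≤ ε / (4 * L' + 2) * (4 * L' + 2) :=
            mul_le_mul_of_nonneg_right (min_le_right _ _) h1.le
        _ = ε := div_mul_cancel₀ _ h1.ne'
    obtain ⟨N7, hN7⟩ := hA7 r e he0
    obtain ⟨M, -, hM⟩ := succ_pow_le r e he0
    obtain ⟨C3, hC3⟩ := hB3 r hr e he0
    obtain ⟨C2, hC2⟩ := hB2 r hr 1 one_pos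
    obtain ⟨T0, hT0⟩ := exists_pow r hr 1 one_pos 0
    obtain ⟨c, hc1, hc2, hc3⟩ := exists_c r hr ρ (N + N7 + M + C3 + C2) ((L' + 1) * r.factorial) T0 (by positivity)
    have hLc : LL r (c + 1) = L' := hb2 (c + 1) (ρ + 1) (Nat.ModEq.add_right 1 hc2)
    have h2c : (0 : ℝ) < 2 ^ c := by positivity
    have hex : ∃ m : ℕ, Code m r (c + 1) := by
      have h1 : T0 ≤ (L' + 1) * r.factorial * 2 ^ (c + 1) := by
        refine hc3.trans ?_
        rw [pow_succ]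
        have : 0 < (L' + 1) * r.factorial * 2 ^ c := by positivity
        nlinarith
      obtain ⟨n, -, hn2, -⟩ := hT0 _ h1
      refine ⟨n, hC2 (c + 1) (by omega) n ?_⟩
      rw [hLc]
      calc (L' + 1) * ((r.factorial : ℝ) * 2 ^ (c + 1)) = (L' + 1) * r.factorial * 2 ^ (c + 1) := by ring
        _ ≤ _ := hn2
    classical
    set m := Nat.find hex with hm
    have hm1 : Code m r (c + 1) := Nat.find_spec hex
    have hm2 : c + 1 ≤ m := hA4.2.2.1 m r (c + 1) hm1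
    obtain ⟨n, hn⟩ : ∃ n, m = n + 1 := ⟨m - 1, by omega⟩
    have hn1 : ¬ Code n r (c + 1) := Nat.find_min hex (by omega)
    refine ⟨n, by omega, ?_⟩
    have h1 := hA5.2.2 n r c hn1
    have h2 := (hN7 n (by omega)).1
    have h3 := hC3 (c + 1) (by omega) m hm1
    rw [hLc] at h3
    have h4 := hM n (by omega)
    have h5 : (m : ℝ) = (n : ℝ) + 1 := by rw [hn]; push_cast; ring
    rw [h5] at h3
    refine le_trans ?_ h1
    rw [le_div_iff₀ h2c]
    refine le_trans ?_ h2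
    have h6 : (L' - e) * ((r.factorial : ℝ) * 2 ^ (c + 1)) ≤ (1 + e) * (n : ℝ) ^ r := h3.trans h4
    -- multiply by `1 - e`
    have h7 : (1 - e) * ((L' - e) * (2 * 2 ^ c)) ≤ (n : ℝ) ^ r / r.factorial := by
      rw [le_div_iff₀ hfac]
      have h8 : (1 - e) * ((L' - e) * ((r.factorial : ℝ) * 2 ^ (c + 1))) ≤ (1 - e) * ((1 + e) * (n : ℝ) ^ r) :=
        mul_le_mul_of_nonneg_left h6 (by linarith)
      have h9 : (1 - e) * ((1 + e) * (n : ℝ) ^ r) ≤ (n : ℝ) ^ r := by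
        have : 0 ≤ (n : ℝ) ^ r := by positivity
        nlinarith [mul_nonneg (mul_pos he0 he0).le this]
      calc (1 - e) * ((L' - e) * (2 * 2 ^ c)) * r.factorial = (1 - e) * ((L' - e) * ((r.factorial : ℝ) * 2 ^ (c + 1))) := by
            rw [pow_succ]; ring
        _ ≤ _ := h8.trans h9
    have h10 : (2 * L' - ε) ≤ (1 - e) * ((1 - e) * ((L' - e) * 2)) := by
      nlinarith [mul_pos he0 he0, mul_pos (mul_pos he0 he0) he0, mul_nonneg (mul_pos he0 he0).le (by linarith : (0:ℝ) ≤ L' - e)]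
    calc (2 * L' - ε) * 2 ^ c ≤ (1 - e) * ((1 - e) * ((L' - e) * 2)) * 2 ^ c :=
          mul_le_mul_of_nonneg_right h10 h2c.le
      _ = (1 - e) * ((1 - e) * ((L' - e) * (2 * 2 ^ c))) := by ring
      _ ≤ _ := mul_le_mul_of_nonneg_left h7 (by linarith)
  · apply le_of_forall_pos_le_add
    intro η hη
    obtain ⟨e, he0, he1, he2⟩ : ∃ e : ℝ, 0 < e ∧ e ≤ 1 ∧ e * (2 * L' + 5) ≤ η := by
      have h1 : 0 < 2 * L' + 5 := by linarith
      refine ⟨min 1 (η / (2 * L' + 5)), lt_min one_pos (div_pos hη h1), min_le_left _ _, ?_⟩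
      calc min 1 (η / (2 * L' + 5)) * (2 * L' + 5) ≤ η / (2 * L' + 5) * (2 * L' + 5) :=
            mul_le_mul_of_nonneg_right (min_le_right _ _) h1.le
        _ = η := div_mul_cancel₀ _ h1.ne'
    obtain ⟨C3, hC3⟩ := hB3 r hr e he0
    obtain ⟨C2, hC2⟩ := hB2 r hr e he0
    obtain ⟨T0, hT0⟩ := exists_pow r hr e he0 0
    obtain ⟨c, hc1, hc2, hc3⟩ := exists_c r hr ρ (C3 + C2) ((L' + e) * r.factorial) T0 (by positivity)
    have hLc : LL r c = L := hb2 c ρ hc2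
    have hLc' : LL r (c + 1) = L' := hb2 (c + 1) (ρ + 1) (Nat.ModEq.add_right 1 hc2)
    have h2c : (0 : ℝ) < 2 ^ c := by positivity
    have h1 : T0 ≤ (L' + e) * r.factorial * 2 ^ (c + 1) := by
      refine hc3.trans ?_
      rw [pow_succ]
      have : 0 < (L' + e) * r.factorial * 2 ^ c := by positivity
      nlinarith
    obtain ⟨n, -, hn2, hn3⟩ := hT0 _ h1
    have hcode : Code n r (c + 1) := by
      apply hC2 (c + 1) (by omega) n
      rw [hLc']
      calc (L' + e) * ((r.factorial : ℝ) * 2 ^ (c + 1)) = (L' + e) * r.factorial * 2 ^ (c + 1) := by ring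
        _ ≤ _ := hn2
    have h2 := hC3 c (by omega) n (hA2 n r c hcode)
    rw [hLc] at h2
    have h3 : (L - e) * ((r.factorial : ℝ) * 2 ^ c) ≤ (1 + e) * ((L' + e) * 2) * ((r.factorial : ℝ) * 2 ^ c) := by
      refine h2.trans (hn3.trans (le_of_eq ?_))
      rw [pow_succ]; ring
    have h4 : L - e ≤ (1 + e) * ((L' + e) * 2) := le_of_mul_le_mul_right h3 (by positivity)
    nlinarith [mul_pos he0 he0]

end Pool.Agent.Helper41.FS
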